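import Mathlib

set_option autoImplicit false

namespace Pool.Agent.Results.MP_2f8eff_co.Counter

/-- three squares around the vertex `0`, the outer path being `1,...,7`. -/
def G0 : SimpleGraph (Fin 8) :=
  SimpleGraph.fromRel fun a b => (a = 0 ∧ b.val % 2 = 1) ∨ (a ≠ 0 ∧ a.val + 1 = b.val)

instance : DecidableRel G0.Adj := by unfold G0; infer_instance

def d0 (a b : Fin 8) : ℕ :=
  if a = b then 0 else if a = 0 then 2 - b.val % 2 else if b = 0 then 2 - a.val % 2 else
    min (a.val - b.val + (b.val - a.val)) (4 - a.val % 2 - b.val % 2)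

theorem ub : ∀ n, ∀ a b, d0 a b = n → ∃ p : G0.Walk a b, p.length = n := by
  intro n
  induction n with
  | zero =>
    intro a b h
    obtain rfl : a = b := by revert a b; decide
    exact ⟨.nil, rfl⟩
  | succ n ih =>
    intro a b h
    obtain ⟨c, h1, h2⟩ : ∃ c, G0.Adj a c ∧ d0 c b + 1 = d0 a b :=
      (by decide : ∀ a b, d0 a b ≠ 0 → ∃ c, G0.Adj a c ∧ d0 c b + 1 = d0 a b) a b (by omega)
    obtain ⟨p, hp⟩ := ih c b (by omega)
    exact ⟨.cons h1 p, by simp [hp]⟩

theorem lb {a b : Fin 8} (p : G0.Walk a b) : d0 a b ≤ p.length := by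
  induction p with
  | nil => simp [d0]
  | @cons a c b h p ih =>
    have := (by decide : ∀ a c b, G0.Adj a c → d0 a b ≤ d0 c b + 1) a c b h
    simp; omega

theorem conn : G0.Connected := ⟨fun a b => ⟨(ub _ a b rfl).choose⟩⟩

theorem hd (a b : Fin 8) : G0.dist a b = d0 a b := by
  obtain ⟨p, hp⟩ := ub _ a b rfl
  obtain ⟨q, hq⟩ := conn.exists_walk_length_eq_dist a b
  exact le_antisymm (hp ▸ SimpleGraph.dist_le p) (hq ▸ lb q)

theorem result : ∃ (V : Type) (_ : Finite V) (G : SimpleGraph V), G.Connected ∧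
    (∀ u v w, ∃! x, G.dist u x + G.dist x v = G.dist u v ∧ G.dist u x + G.dist x w = G.dist u w ∧
      G.dist v x + G.dist x w = G.dist v w) ∧
    ∃ a b c, (∀ x y z, G.dist x y + G.dist y z + G.dist x z ≤
        G.dist a b + G.dist b c + G.dist a c) ∧
      G.eccent a ≠ G.ediam ∧ G.eccent b ≠ G.ediam ∧ G.eccent c ≠ G.ediam := by
  have h1 : ∀ a b, G0.edist a b = d0 a b := fun a b => by
    rw [← hd, (conn a b).coe_dist_eq_edist]
  have h2 : ∀ a, (∀ b, d0 a b ≤ 3) → G0.eccent a ≠ G0.ediam := by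
    intro a h e
    have h3 : G0.eccent a ≤ 3 := by
      rw [SimpleGraph.eccent_le_iff]
      intro b; rw [h1]; exact_mod_cast h b
    have h4 := G0.edist_le_ediam (u := 2) (v := 6)
    rw [← e, h1, show d0 2 6 = 4 by decide] at h4
    exact absurd (h4.trans h3) (by decide)
  refine ⟨Fin 8, inferInstance, G0, conn, ?_, 1, 4, 7, ?_, h2 _ (by decide), h2 _ (by decide),
    h2 _ (by decide)⟩
  · simp only [hd, ExistsUnique]; decide +kernel
  · simp only [hd]; decide +kernel

end Pool.Agent.Results.MP_2f8eff_co.Counter
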